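import Pool.Agent.X125.EQ.Fin

/-! Negative answer to MP_3f6bc3 Q1: infinitely many positive masses in the plane without any
equilibrium point. -/

set_option autoImplicit false
open Complex
open scoped ComplexConjugate

namespace Pool.Agent.Results.MP_3f6bc3_an.NoEquilibrium

open Pool.Agent.X125.EQ

/-- The standing hypotheses: infinitely many distinct points `x k` of `ℝⁿ`, none equal to `0`,
without accumulation point, with masses `a k > 0` satisfying `∑ a k / |x k| ^ (n - 1) < ∞`. -/
structure Configuration (n : ℕ) (x : ℕ → EuclideanSpace ℝ (Fin n)) (a : ℕ → ℝ) : Prop where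
  distinct : Function.Injective x
  ne_zero : ∀ k, x k ≠ 0
  mass_pos : ∀ k, 0 < a k
  locally_finite : ∀ R : ℝ, {k | ‖x k‖ ≤ R}.Finite
  summable : Summable fun k => a k / ‖x k‖ ^ (n - 1)

/-- The force exerted at `y` by the mass `a k` placed at `x k`. -/
noncomputable def pull (n : ℕ) (x : ℕ → EuclideanSpace ℝ (Fin n)) (a : ℕ → ℝ)
    (y : EuclideanSpace ℝ (Fin n)) (k : ℕ) : EuclideanSpace ℝ (Fin n) :=
  (a k / ‖y - x k‖ ^ n) • (x k - y)

/-- The force field `F(y) = ∑ a k (x k - y) / |y - x k| ^ n`. -/
noncomputable def force (n : ℕ) (x : ℕ → EuclideanSpace ℝ (Fin n)) (a : ℕ → ℝ)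
    (y : EuclideanSpace ℝ (Fin n)) : EuclideanSpace ℝ (Fin n) :=
  ∑' k, pull n x a y k

/-- the identification of the plane with `ℂ` -/
noncomputable def Phi : ℂ ≃ₗᵢ[ℝ] EuclideanSpace ℝ (Fin 2) := Complex.orthonormalBasisOneI.repr

theorem term_identity (a : ℝ) (z p : ℂ) :
    ((a / ‖z - p‖ ^ 2 : ℝ) : ℂ) * (p - z) = -conj ((a : ℂ) / (z - p)) := by
  rcases eq_or_ne (z - p) 0 with h | h
  · rw [h]
    have : p - z = 0 := by rw [← neg_sub, h, neg_zero]
    rw [this]; simp
  · have h2 : conj (z - p) ≠ 0 := (map_ne_zero _).2 h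
    have h3 : ((‖z - p‖ : ℂ)) ^ 2 = (z - p) * conj (z - p) := by
      rw [Complex.mul_conj, Complex.normSq_eq_norm_sq]; push_cast; ring
    rw [map_div₀, Complex.conj_ofReal]
    push_cast
    rw [h3]
    field_simp
    ring

/-- There are infinitely many positive masses in the plane, placed on the two half lines
`|x 1| = x 0 > 0` and satisfying the standing hypotheses, whose force field converges and has no
zero off the points; consequently the question has a negative answer. -/
theorem result :
    (∃ (x : ℕ → EuclideanSpace ℝ (Fin 2)) (a : ℕ → ℝ), Configuration 2 x a ∧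
      (∀ k, 0 < x k 0 ∧ |x k 1| = x k 0) ∧
      ∀ y, (∀ k, y ≠ x k) → Summable (pull 2 x a y) ∧ force 2 x a y ≠ 0) ∧
    ¬ ∀ n : ℕ, 2 ≤ n → ∀ (x : ℕ → EuclideanSpace ℝ (Fin n)) (a : ℕ → ℝ), Configuration n x a →
      ∃ y, (∀ k, y ≠ x k) ∧ force n x a y = 0 := by
  have main : ∃ (x : ℕ → EuclideanSpace ℝ (Fin 2)) (a : ℕ → ℝ), Configuration 2 x a ∧
      (∀ k, 0 < x k 0 ∧ |x k 1| = x k 0) ∧
      ∀ y, (∀ k, y ≠ x k) → Summable (pull 2 x a y) ∧ force 2 x a y ≠ 0 := by
    obtain ⟨e⟩ := exists_equiv
    refine ⟨fun k => Phi (pole (e k)), fun k => wt (e k).1, ⟨?_, ?_, ?_, ?_, ?_⟩, ?_, ?_⟩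
    · exact Phi.injective.comp (pole_injective.comp e.injective)
    · intro k h
      have h1 : ‖Phi (pole (e k))‖ = 0 := by rw [h, norm_zero]
      rw [LinearIsometryEquiv.norm_map, norm_pole] at h1
      exact (Z_pos (e k).1.2).ne' h1
    · exact fun k => wt_pos (e k).1.2
    · intro R
      have h : {k | ‖Phi (pole (e k))‖ ≤ R} = e ⁻¹' {p | ‖pole p‖ ≤ R} := by
        ext k
        simp
      rw [h]
      exact (finite_pole R).preimage e.injective.injOn
    · have h := (e.summable_iff (f := fun p : Z × Bool => wt p.1 / ‖pole p‖)).2 summable_pole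
      refine h.congr fun k => ?_
      simp
    · intro k
      have hr := Z_pos (e k).1.2
      have hc := cc_pos
      have h0 : Phi (pole (e k)) 0 = (pole (e k)).re := rfl
      have h1 : Phi (pole (e k)) 1 = (pole (e k)).im := rfl
      rw [h0, h1, pole]
      generalize e k = p at *
      obtain ⟨r, b⟩ := p
      simp only at hr ⊢
      have h2 : 0 < cc * (r : ℝ) := mul_pos hc hr
      cases b
      · have h3 : (om false * ((r : ℝ) : ℂ)).re = cc * r := by simp [om]
        have h4 : (om false * ((r : ℝ) : ℂ)).im = -(cc * r) := by simp [om]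
        rw [h3, h4, abs_neg, abs_of_pos h2]
        exact ⟨h2, rfl⟩
      · have h3 : (om true * ((r : ℝ) : ℂ)).re = cc * r := by simp [om]
        have h4 : (om true * ((r : ℝ) : ℂ)).im = cc * r := by simp [om]
        rw [h3, h4, abs_of_pos h2]
        exact ⟨h2, rfl⟩
    · intro y hy
      have hy2 : ∀ p, Phi.symm y ≠ pole p := by
        intro p hp
        refine hy (e.symm p) ?_
        simp only [Equiv.apply_symm_apply]
        rw [← hp, LinearIsometryEquiv.apply_symm_apply]
      have hs := hasSum_fld hy2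
      have hne := fld_ne hy2
      have hs1 : HasSum (fun k => (wt (e k).1 : ℂ) / (Phi.symm y - pole (e k)))
          (fld (Phi.symm y)) := by
        have h := (e.hasSum_iff (f := fun p : Z × Bool => (wt p.1 : ℂ) / (Phi.symm y - pole p))
          (a := fld (Phi.symm y))).2 (by rw [fld]; exact hs.summable.hasSum)
        exact h
      have hs2 := ((Complex.hasSum_conj'.2 hs1).neg)
      have hs3 : HasSum (fun k => Phi (-conj ((wt (e k).1 : ℂ) / (Phi.symm y - pole (e k)))))
          (Phi (-conj (fld (Phi.symm y)))) := by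
        exact (Phi.toContinuousLinearEquiv : ℂ →L[ℝ] EuclideanSpace ℝ (Fin 2)).hasSum hs2
      have hterm : ∀ k, pull 2 (fun k => Phi (pole (e k))) (fun k => wt (e k).1) y k
          = Phi (-conj ((wt (e k).1 : ℂ) / (Phi.symm y - pole (e k)))) := by
        intro k
        have hy3 : y = Phi (Phi.symm y) := (LinearIsometryEquiv.apply_symm_apply _ _).symm
        have h1 : ‖y - Phi (pole (e k))‖ = ‖Phi.symm y - pole (e k)‖ := by
          conv_lhs => rw [hy3]
          rw [← map_sub, LinearIsometryEquiv.norm_map]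
        have h2 : Phi (pole (e k)) - y = Phi (pole (e k) - Phi.symm y) := by
          rw [map_sub, ← hy3]
        rw [pull, h1, h2, ← term_identity, ← Complex.real_smul, map_smul]
      have hs4 : HasSum (pull 2 (fun k => Phi (pole (e k))) (fun k => wt (e k).1) y)
          (Phi (-conj (fld (Phi.symm y)))) := by
        have : pull 2 (fun k => Phi (pole (e k))) (fun k => wt (e k).1) y
            = fun k => Phi (-conj ((wt (e k).1 : ℂ) / (Phi.symm y - pole (e k)))) :=
          funext hterm
        rw [this]; exact hs3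
      refine ⟨hs4.summable, ?_⟩
      rw [force, hs4.tsum_eq]
      intro h
      have h5 : -conj (fld (Phi.symm y)) = 0 := by
        apply Phi.injective
        rw [h, map_zero]
      rw [neg_eq_zero, map_eq_zero] at h5
      exact hne h5
  refine ⟨main, ?_⟩
  intro h
  obtain ⟨x, a, hconf, -, hx⟩ := main
  obtain ⟨y, hy, h0⟩ := h 2 le_rfl x a hconf
  exact (hx y hy).2 h0

end Pool.Agent.Results.MP_3f6bc3_an.NoEquilibrium
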